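import Pool.Agent.UMG.StmtsB

/-!
# Row GCG of squad UMG, block B (MP_34c13a_lc)
-/

set_option autoImplicit false

namespace Pool.Agent.UMG.B.H45

open Finset Pool.Agent.UMG Pool.Agent.UMG.B

theorem csum_congr {R : Type} [CommSemiring R] (k : ℕ) : ∀ Ψ Ψ' : List ℕ → R,
    (∀ p : List ℕ, p.sum = k → (∀ i ∈ p, 1 ≤ i) → Ψ p = Ψ' p) → csum k Ψ = csum k Ψ' := by
  induction k using Nat.strong_induction_on with
  | _ k ih =>
    intro Ψ Ψ' h
    match k, ih, h with
    | 0, _, h =>
      rw [csum, csum]
      exact h [] rfl (fun i hi => absurd hi List.not_mem_nil)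
    | k + 1, ih, h =>
      rw [csum, csum]
      refine Finset.sum_congr rfl (fun i hi => ?_)
      have hi' : i < k + 1 := Finset.mem_range.1 hi
      rw [ih (k - i) (by omega) (fun p => Ψ ((i + 1) :: p)) (fun p => Ψ' ((i + 1) :: p)) ?_]
      intro p hp hp1
      refine h _ ?_ ?_
      · rw [List.sum_cons, hp]
        omega
      · intro j hj
        rcases List.mem_cons.1 hj with rfl | hj
        · omega
        · exact hp1 j hj

theorem drop_facts (k : ℕ) : ∀ (t : List ℕ), t.Pairwise (· ≤ ·) → (∀ x ∈ t, k ≤ x) → ∀ i,
    i ≤ t.count k → i ≤ t.length ∧ i * k + (t.drop i).sum = t.sum := by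
  intro t
  induction t with
  | nil =>
    intro _ _ i hi
    have : i = 0 := by simpa using hi
    subst this
    simp
  | cons x t ih =>
    intro hp hk i hi
    match i, hi with
    | 0, _ => simp
    | i + 1, hi =>
      have hmem : k ∈ x :: t := List.count_pos_iff.1 (by omega)
      have hxk : x ≤ k := by
        rcases List.mem_cons.1 hmem with h | h
        · exact h.ge
        · exact (List.pairwise_cons.1 hp).1 k h
      have hx : x = k := le_antisymm hxk (hk x List.mem_cons_self)
      subst hx
      rw [List.count_cons_self] at hi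
      obtain ⟨h1, h2⟩ := ih (List.pairwise_cons.1 hp).2
        (fun y hy => hk y (List.mem_cons_of_mem _ hy)) i (by omega)
      refine ⟨by rw [List.length_cons]; omega, ?_⟩
      rw [List.drop_succ_cons, List.sum_cons, ← h2]
      ring

theorem gcg : GcgStmt := by
  intro R _ d
  induction hn : d.length using Nat.strong_induction_on generalizing d with
  | _ n ih =>
    intro hd Ψ Ψ' h
    match d, hn, hd, h with
    | [], hn, _, h =>
      rw [gsum, gsum]
      refine h [] ⟨?_, ?_, ?_⟩
      · simpa using hn
      · simp
      · intro x hx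
        exact absurd hx List.not_mem_nil
    | k :: t, hn, hd, h =>
      rw [gsum, gsum]
      refine Finset.sum_congr rfl (fun i hi => ?_)
      have hi' : i ≤ t.count k := by
        have := Finset.mem_range.1 hi
        omega
      obtain ⟨h1, h2⟩ := drop_facts k t (List.pairwise_cons.1 hd).2 (List.pairwise_cons.1 hd).1
        i hi'
      have hlen : (t.drop i).length = t.length - i := List.length_drop
      have hcons : (k :: t).length = t.length + 1 := List.length_cons
      rw [csum_congr k (fun p => gsum (t.drop i) (fun c => Ψ ((i + 1, p) :: c)))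
        (fun p => gsum (t.drop i) (fun c => Ψ' ((i + 1, p) :: c))) ?_]
      intro p hp hp1
      refine ih (t.drop i).length (by omega) (t.drop i) rfl
        ((List.pairwise_cons.1 hd).2.sublist (List.drop_sublist i t)) _ _ ?_
      intro c hc
      refine h _ ⟨?_, ?_, ?_⟩
      · rw [List.map_cons, List.sum_cons, hc.1, hlen, ← hn, hcons]
        show i + 1 + (t.length - i) = t.length + 1
        omega
      · rw [List.map_cons, List.sum_cons, hc.2.1, List.sum_cons, ← h2]
        show (i + 1) * p.sum + (t.drop i).sum = _
        rw [hp]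
        ring
      · intro x hx
        rcases List.mem_cons.1 hx with rfl | hx
        · exact ⟨by omega, hp1⟩
        · exact hc.2.2 x hx

end Pool.Agent.UMG.B.H45
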