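import Pool.Agent.UMG.CStmts

/-!
# Row MTK of squad UMG, block C (MP_34c13a_lc)
-/

set_option autoImplicit false

namespace Pool.Agent.UMG.C.H45

open Finset Pool.Agent.UMG Pool.Agent.UMG.C

theorem split (j m x : ℕ) (hx : x < F j (m + 1)) (h : ¬ x < sb j m) :
    pI j m x < m ∧ xI j m x < F j (m - 1) := by
  match m, hx, h with
  | 0, hx, h =>
    exfalso
    apply h
    have e : F j (0 + 1) = if 2 ∣ j then 1 else 0 := rfl
    have e2 : sb j 0 = if 2 ∣ j then 1 else 0 := rfl
    rw [e2, ← e]
    exact hx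
  | m + 1, hx, h =>
    have e : F j (m + 1 + 1) = sb j (m + 1) + (m + 1) * j * F j m := by
      show F j (m + 2) = _
      rw [F]
      rfl
    have hy : x - sb j (m + 1) < j * F j m * (m + 1) := by
      have e3 : (m + 1) * j * F j m = j * F j m * (m + 1) := by ring
      omega
    have hpos : 0 < F j m := by
      rcases Nat.eq_zero_or_pos (F j m) with h0 | h0
      · rw [h0, mul_zero, zero_mul] at hy
        exact absurd hy (Nat.not_lt_zero _)
      · exact h0
    constructor
    · unfold pI
      show (x - sb j (m + 1)) / (j * F j m) < m + 1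
      exact Nat.div_lt_of_lt_mul hy
    · unfold xI
      exact Nat.mod_lt _ hpos

theorem step (j : ℕ) (s : List ℕ × ℕ) (hs : s.2 < F j s.1.length) :
    (stM j s).1.length ≤ s.1.length ∧ (∀ a ∈ (stM j s).1, a ∈ s.1) ∧
      (stM j s).2 < F j (stM j s).1.length := by
  unfold stM
  split_ifs with h1 h2
  · exact ⟨le_rfl, fun a ha => ha, hs⟩
  · refine ⟨by rw [List.length_drop]; omega, fun a ha => List.mem_of_mem_drop ha, ?_⟩
    show s.2 < F j (s.1.drop 1).length
    rw [List.length_drop]
    unfold sb at h2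
    split_ifs at h2 with h3
    · exact h2
    · exact absurd h2 (Nat.not_lt_zero _)
  · have hl : s.1.length = (s.1.length - 1) + 1 := by omega
    have hs' : s.2 < F j ((s.1.length - 1) + 1) := by rw [← hl]; exact hs
    obtain ⟨hp, hx⟩ := split j (s.1.length - 1) s.2 hs' h2
    have hd : (s.1.drop 1).length = s.1.length - 1 := List.length_drop
    have he : ((s.1.drop 1).eraseIdx (pI j (s.1.length - 1) s.2)).length =
        s.1.length - 1 - 1 := by
      rw [List.length_eraseIdx_of_lt (by rw [hd]; exact hp), hd]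
    refine ⟨?_, ?_, ?_⟩
    · show ((s.1.drop 1).eraseIdx (pI j (s.1.length - 1) s.2)).length ≤ _
      rw [he]
      omega
    · intro a ha
      exact List.mem_of_mem_drop (List.mem_of_mem_eraseIdx ha)
    · show xI j (s.1.length - 1) s.2 < F j ((s.1.drop 1).eraseIdx _).length
      rw [he]
      exact hx

theorem mtk : MtkStmt := by
  intro j R x t hx
  have key : ∀ t, (sM j (R, x) t).1.length ≤ R.length ∧ (∀ a ∈ (sM j (R, x) t).1, a ∈ R) ∧
      (sM j (R, x) t).2 < F j (sM j (R, x) t).1.length := by
    intro t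
    induction t with
    | zero => exact ⟨le_rfl, fun a ha => ha, hx⟩
    | succ t ih =>
      obtain ⟨h1, h2, h3⟩ := ih
      obtain ⟨g1, g2, g3⟩ := step j (sM j (R, x) t) h3
      exact ⟨le_trans g1 h1, fun a ha => h2 a (g2 a ha), g3⟩
  obtain ⟨h1, h2, h3⟩ := key t
  refine ⟨h1, h2, h3, fun h4 h5 => ?_⟩
  have hl : (sM j (R, x) t).1.length = ((sM j (R, x) t).1.length - 1) + 1 := by omega
  have h3' : (sM j (R, x) t).2 < F j (((sM j (R, x) t).1.length - 1) + 1) := by
    rw [← hl]; exact h3
  exact (split j _ _ h3' h5).1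

end Pool.Agent.UMG.C.H45
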