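import Pool.Agent.UMG.StmtsA

/-!
# Row DGT of squad UMG (MP_34c13a_lc)
-/

set_option autoImplicit false

namespace Pool.Agent.UMG.H45

open Finset
open Pool.Agent.UMG

theorem sum_block (N B : ℕ) (f : ℕ → ℝ) :
    ∑ g ∈ range (N * B), f g = ∑ b ∈ range B, ∑ g ∈ range N, f (N * b + g) := by
  induction B with
  | zero => simp
  | succ B ih => rw [Nat.mul_succ, Finset.sum_range_add, ih, Finset.sum_range_succ]

theorem dg_low (M K b g j : ℕ) (hj : j < K) : dg M ((M + 1) ^ K * b + g) j = dg M g j := by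
  unfold dg
  have h1 : (M + 1) ^ K = (M + 1) ^ j * ((M + 1) * (M + 1) ^ (K - j - 1)) := by
    rw [← pow_succ', ← pow_add]
    congr 1
    omega
  rw [h1, mul_assoc, Nat.mul_add_div (by positivity), mul_assoc, Nat.mul_add_mod]

theorem dg_top (M K b g : ℕ) (hb : b < M + 1) (hg : g < (M + 1) ^ K) :
    dg M ((M + 1) ^ K * b + g) K = b := by
  unfold dg
  rw [Nat.mul_add_div (by positivity), Nat.div_eq_of_lt hg, Nat.add_zero, Nat.mod_eq_of_lt hb]

theorem dgt : DgtStmt := by
  intro M K φ
  induction K with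
  | zero => simp
  | succ K ih =>
    rw [pow_succ, sum_block, Finset.prod_range_succ, ← ih, Finset.sum_mul_sum, Finset.sum_comm]
    refine Finset.sum_congr rfl (fun g hg => Finset.sum_congr rfl (fun b hb => ?_))
    rw [Finset.prod_range_succ, dg_top M K b g (Finset.mem_range.1 hb) (Finset.mem_range.1 hg)]
    congr 1
    exact Finset.prod_congr rfl (fun j hj => by rw [dg_low M K b g j (Finset.mem_range.1 hj)])

end Pool.Agent.UMG.H45
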