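import Pool.Agent.UMG.StmtsA

/-!
# Row PAR of squad UMG (MP_34c13a_lc)
-/

set_option autoImplicit false

namespace Pool.Agent.UMG.H45

open Finset
open Pool.Agent.UMG

theorem cls_zero (j : ℕ) : Cls j 0 := by
  refine ⟨fun C => ?_, fun C => ?_⟩
  · rw [MvPolynomial.coeff_zero]
  · rw [MvPolynomial.coeff_zero, MvPolynomial.coeff_zero, mul_zero, mul_zero]

theorem cls_one (j : ℕ) (_hj : 1 ≤ j) : Cls j 1 := by
  refine ⟨fun C => ?_, fun C => ?_⟩
  · rw [MvPolynomial.coeff_one]
    split_ifs <;> norm_num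
  · have h1 : ¬ (0 = C + Finsupp.single j 1) := by
      intro h
      have := congrArg (fun f : ℕ →₀ ℕ => f j) h
      simp at this
    have h2 : 0 ≤ (1 : MvPolynomial ℕ ℝ).coeff (C + Finsupp.single 1 j) := by
      rw [MvPolynomial.coeff_one]
      split_ifs <;> norm_num
    rw [MvPolynomial.coeff_one, if_neg h1, mul_zero]
    exact mul_nonneg (Nat.cast_nonneg _) h2

theorem cls_add (j : ℕ) {p q : MvPolynomial ℕ ℝ} (hp : Cls j p) (hq : Cls j q) :
    Cls j (p + q) := by
  refine ⟨fun C => ?_, fun C => ?_⟩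
  · rw [MvPolynomial.coeff_add]
    exact add_nonneg (hp.1 C) (hq.1 C)
  · rw [MvPolynomial.coeff_add, MvPolynomial.coeff_add]
    have h := add_le_add (hp.2 C) (hq.2 C)
    rw [← mul_add, ← mul_add] at h
    exact h

theorem cls_smul (j : ℕ) {p : MvPolynomial ℕ ℝ} (hp : Cls j p) (c : ℚ) (hc : 0 ≤ c) :
    Cls j (c • p) := by
  have hc' : (0 : ℝ) ≤ (c : ℝ) := by exact_mod_cast hc
  have e : ∀ C, (c • p).coeff C = (c : ℝ) * p.coeff C := by
    intro C
    rw [MvPolynomial.coeff_smul, Rat.smul_def]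
  refine ⟨fun C => ?_, fun C => ?_⟩
  · rw [e]
    exact mul_nonneg hc' (hp.1 C)
  · rw [e, e]
    have := mul_le_mul_of_nonneg_left (hp.2 C) hc'
    calc _ = (c : ℝ) * ((j : ℝ) * ((C j : ℝ) + 1) * p.coeff (C + Finsupp.single j 1)) := by ring
      _ ≤ _ := this
      _ = _ := by ring

theorem cls_sum (j : ℕ) {ι : Type} (s : Finset ι) (f : ι → MvPolynomial ℕ ℝ)
    (h : ∀ i ∈ s, Cls j (f i)) : Cls j (∑ i ∈ s, f i) := by
  classical
  induction s using Finset.induction_on with
  | empty => rw [Finset.sum_empty]; exact cls_zero j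
  | insert a s ha ih =>
    rw [Finset.sum_insert ha]
    exact cls_add j (h a (Finset.mem_insert_self a s))
      (ih (fun i hi => h i (Finset.mem_insert_of_mem hi)))

theorem cls_E (h1 : PclStmt) (j : ℕ) (hj : 2 ≤ j) (w : ℕ → MvPolynomial ℕ ℝ)
    (hw : ∀ l, 1 ≤ l → Cls j (w l)) (n : ℕ) : Cls j (E w n) := by
  induction n using Nat.strong_induction_on with
  | _ n ih =>
    match n, ih with
    | 0, _ =>
      rw [E]
      exact cls_one j (by omega)
    | n + 1, ih =>
      rw [E]
      refine cls_smul j ?_ _ (by positivity)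
      refine cls_sum j _ _ (fun i hi => ?_)
      exact h1 j _ _ hj (hw (i + 1) (by omega)) (ih (n - i) (by omega))

theorem par (h1 : PclStmt) (h2 : DerStmt) : ParStmt := by
  intro K j d hj hjK hodd
  have hj2 : 2 ≤ j := by omega
  unfold PS
  have key : ∀ (s : Finset ℕ), Cls j (∏ k ∈ s, E (ws K Xv k) (d.count k)) := by
    classical
    intro s
    induction s using Finset.induction_on with
    | empty => rw [Finset.prod_empty]; exact cls_one j (by omega)
    | insert a s ha ih =>
      rw [Finset.prod_insert ha]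
      refine h1 j _ _ hj2 ?_ ih
      refine cls_E h1 j hj2 _ (fun l _ => ?_) _
      unfold ws
      split_ifs with hl hl2
      · exact (h2 K j a hj hjK hodd).1
      · exact (h2 K j a hj hjK hodd).2
      · exact cls_zero j
  exact key _

end Pool.Agent.UMG.H45
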